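import Mathlib

set_option autoImplicit false

namespace Pool.Agent.Results.MP_02a275_nt.NimSumSequence

/-- The 2-kernel of an integer sequence `a`: the set of all subsequences
`n ↦ a (2 ^ e * n + r)` with `e ≥ 0` and `0 ≤ r < 2 ^ e`. -/
def kernel2 (a : ℕ → ℤ) : Set (ℕ → ℤ) :=
  {f | ∃ e r : ℕ, r < 2 ^ e ∧ f = fun n => a (2 ^ e * n + r)}

/-- A sequence is 2-regular if the `ℤ`-module generated by its 2-kernel is finitely
generated. -/
def TwoRegular (a : ℕ → ℤ) : Prop :=
  (Submodule.span ℤ (kernel2 a)).FG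

/-- Criterion: if the kernel lies in a finitely generated module, the sequence is 2-regular. -/
theorem twoRegular_of_le {a : ℕ → ℤ} {M : Submodule ℤ (ℕ → ℤ)} (hM : M.FG)
    (h : kernel2 a ⊆ M) : TwoRegular a := by
  unfold TwoRegular
  have : IsNoetherian ℤ M := isNoetherian_of_fg_of_noetherian M hM
  have hle : Submodule.span ℤ (kernel2 a) ≤ M := Submodule.span_le.2 h
  exact Submodule.FG.of_le hM hle

theorem twoRegular_id : TwoRegular (fun n => (n : ℤ)) := by
  apply twoRegular_of_le (M := Submodule.span ℤ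
    {(fun n : ℕ => (n : ℤ)), (fun _ : ℕ => (1 : ℤ))})
  · exact Submodule.fg_span (Set.toFinite _)
  · rintro f ⟨e, r, -, rfl⟩
    rw [SetLike.mem_coe, Submodule.mem_span_pair]
    refine ⟨2 ^ e, r, ?_⟩
    funext n
    simp

theorem twoRegular_sq : TwoRegular (fun n => ((n ^ 2 : ℕ) : ℤ)) := by
  apply twoRegular_of_le (M := Submodule.span ℤ
    {(fun n : ℕ => ((n : ℤ)) ^ 2), (fun n : ℕ => (n : ℤ)), (fun _ : ℕ => (1 : ℤ))})
  · exact Submodule.fg_span (Set.toFinite _)
  · rintro f ⟨e, r, -, rfl⟩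
    rw [SetLike.mem_coe, Submodule.mem_span_triple]
    refine ⟨4 ^ e, 2 ^ e * (2 * r), r ^ 2, ?_⟩
    funext n
    have h4 : (4 : ℤ) ^ e = 2 ^ e * 2 ^ e := by
      rw [← mul_pow]; norm_num
    simp only [Pi.add_apply, Pi.smul_apply, smul_eq_mul]
    push_cast
    rw [h4]
    ring

/-- Any integer combination `x • a + y • b + z • c` of 2-regular sequences is 2-regular. -/
theorem TwoRegular.comb {a b c : ℕ → ℤ} (ha : TwoRegular a) (hb : TwoRegular b)
    (hc : TwoRegular c) (x y z : ℤ) : TwoRegular (fun n => x * a n + y * b n + z * c n) := by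
  apply twoRegular_of_le (M := Submodule.span ℤ (kernel2 a) ⊔ Submodule.span ℤ (kernel2 b) ⊔
    Submodule.span ℤ (kernel2 c)) ((ha.sup hb).sup hc)
  rintro f ⟨e, r, hr, rfl⟩
  have h1 : (fun n => a (2 ^ e * n + r)) ∈ Submodule.span ℤ (kernel2 a) :=
    Submodule.subset_span ⟨e, r, hr, rfl⟩
  have h2 : (fun n => b (2 ^ e * n + r)) ∈ Submodule.span ℤ (kernel2 b) :=
    Submodule.subset_span ⟨e, r, hr, rfl⟩
  have h3 : (fun n => c (2 ^ e * n + r)) ∈ Submodule.span ℤ (kernel2 c) :=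
    Submodule.subset_span ⟨e, r, hr, rfl⟩
  have h4 := Submodule.add_mem_sup (Submodule.add_mem_sup
    (Submodule.smul_mem _ x h1) (Submodule.smul_mem _ y h2)) (Submodule.smul_mem _ z h3)
  exact h4

theorem xor_add_two_mul_and : ∀ m n : ℕ, (m ^^^ n) + 2 * (m &&& n) = m + n := by
  intro m
  induction m using Nat.strong_induction_on with
  | _ m ih =>
    intro n
    rcases Nat.eq_zero_or_pos m with h0 | h0
    · subst h0; simp
    · have h := ih (m / 2) (by omega) (n / 2)
      rw [← Nat.xor_div_two, ← Nat.and_div_two] at h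
      have hx := @Nat.xor_mod_two_eq_one m n
      have ha := @Nat.and_mod_two_eq_one m n
      omega

/-- The square of `2 ^ (j + 1) + 1` in a convenient shape. -/
theorem sq_shape (j : ℕ) : (2 ^ (j + 1) + 1) ^ 2 = 2 ^ (j + 2) * (2 ^ j + 1) + 1 := by
  ring

theorem testBit_one' (s : ℕ) : Nat.testBit 1 s = decide (s = 0) := by
  by_cases hs : s = 0
  · subst hs; simp
  · simp only [hs, decide_false]
    by_contra hc
    simp only [Bool.not_eq_false] at hc
    exact hs (Nat.testBit_one_eq_true_iff_self_eq_zero.1 hc)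

theorem testBit_N (i j t : ℕ) :
    (2 ^ i * (2 ^ (j + 1) + 1)).testBit t = decide (t = i ∨ t = i + j + 1) := by
  have h1 : (2 ^ (j + 1) + 1) = 2 ^ (j + 1) * 1 + 1 := by ring
  rw [Nat.testBit_two_pow_mul, h1, Nat.testBit_two_pow_mul_add _ (Nat.one_lt_two_pow (by omega)),
    testBit_one', testBit_one']
  split_ifs with h
  · rw [Bool.eq_iff_iff]; simp only [Bool.and_eq_true, decide_eq_true_eq]; omega
  · rw [Bool.eq_iff_iff]; simp only [Bool.and_eq_true, decide_eq_true_eq]; omega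

/-- Bits of `N & N ^ 2` for `N = 2 ^ i * (2 ^ (j + 1) + 1)`, `1 ≤ i ≤ j + 1`. -/
theorem and_sq (i j : ℕ) (hi : 1 ≤ i) (hij : i ≤ j + 1) :
    (2 ^ i * (2 ^ (j + 1) + 1)) &&& (2 ^ i * (2 ^ (j + 1) + 1)) ^ 2 =
      if i = j + 1 then 2 ^ (2 * i) else 0 := by
  apply Nat.eq_of_testBit_eq
  intro t
  rw [Nat.testBit_and, testBit_N]
  have hsq : (2 ^ i * (2 ^ (j + 1) + 1)) ^ 2 = 2 ^ (2 * i) * (2 ^ (j + 2) * (2 ^ j + 1) + 1) := by
    rw [← sq_shape]; ring
  rw [hsq, Nat.testBit_two_pow_mul]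
  by_cases ht : t = i ∨ t = i + j + 1
  · rw [Nat.testBit_two_pow_mul_add _ (Nat.one_lt_two_pow (by omega)), if_pos (by omega),
      testBit_one']
    split_ifs with h2
    · rw [Nat.testBit_two_pow, Bool.eq_iff_iff]
      simp only [Bool.and_eq_true, decide_eq_true_eq]
      omega
    · rw [Nat.zero_testBit, Bool.eq_iff_iff]
      simp only [Bool.and_eq_true, decide_eq_true_eq]
      constructor
      · intro h
        omega
      · intro h
        exact absurd h (by simp)
  · simp only [ht, decide_false, Bool.false_and]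
    split_ifs with h2
    · rw [Nat.testBit_two_pow]
      symm
      simp only [decide_eq_false_iff_not]
      omega
    · simp

/-- The sequence `(n & n ^ 2)` written as `(n + n ^ 2 - (n ^^^ n ^ 2))`, i.e. twice the
bitwise conjunction. -/
theorem two_and (n : ℕ) :
    (1 : ℤ) * (n : ℤ) + 1 * ((n ^ 2 : ℕ) : ℤ) + (-1) * ((n ^^^ n ^ 2 : ℕ) : ℤ) =
      2 * ((n &&& n ^ 2 : ℕ) : ℤ) := by
  have h := xor_add_two_mul_and n (n ^ 2)
  have h' : ((n ^^^ n ^ 2 : ℕ) : ℤ) + 2 * ((n &&& n ^ 2 : ℕ) : ℤ) = (n : ℤ) + ((n ^ 2 : ℕ) : ℤ) := by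
    exact_mod_cast h
  linarith

theorem not_twoRegular_and : ¬ TwoRegular (fun n => 2 * ((n &&& n ^ 2 : ℕ) : ℤ)) := by
  intro h
  set c : ℕ → ℤ := fun n => 2 * ((n &&& n ^ 2 : ℕ) : ℤ) with hc
  unfold TwoRegular at h
  set M : Submodule ℤ (ℕ → ℤ) := Submodule.span ℤ (kernel2 c) with hM
  have hN : IsNoetherian ℤ M := isNoetherian_of_fg_of_noetherian M h
  let f : ℕ → ℕ → ℤ := fun i n => c (2 ^ (i + 2) * n + 2 ^ (i + 1))
  have hf : ∀ i, f i ∈ M := fun i =>
    Submodule.subset_span ⟨i + 2, 2 ^ (i + 1), Nat.pow_lt_pow_right (by norm_num) (by omega), rfl⟩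
  have hval : ∀ i j : ℕ, i ≤ j → f i (2 ^ j) = if i = j then 2 * 2 ^ (2 * (i + 1)) else 0 := by
    intro i j hij
    have e1 : 2 ^ (i + 2) * 2 ^ j + 2 ^ (i + 1) = 2 ^ (i + 1) * (2 ^ (j + 1) + 1) := by ring
    simp only [f, hc]
    rw [e1, and_sq (i + 1) j (by omega) (by omega)]
    by_cases hh : i = j
    · simp [hh]
    · rw [if_neg hh, if_neg (by omega)]
      simp
  have hli : LinearIndependent ℤ (fun i => (⟨f i, hf i⟩ : M)) := by
    rw [linearIndependent_iff']
    intro s g hg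
    by_contra hcon
    push Not at hcon
    obtain ⟨i0, hi0, hgi0⟩ := hcon
    -- take the largest index with a nonzero coefficient
    let s' := s.filter (fun i => g i ≠ 0)
    have hs' : s'.Nonempty := ⟨i0, by simp [s', hi0, hgi0]⟩
    let m := s'.max' hs'
    have hm : m ∈ s' := s'.max'_mem hs'
    have hms : m ∈ s := (Finset.mem_filter.1 hm).1
    have hgm : g m ≠ 0 := (Finset.mem_filter.1 hm).2
    have hev : ∑ i ∈ s, g i * f i (2 ^ m) = 0 := by
      have h1 := congrArg (fun z : M => (z : ℕ → ℤ) (2 ^ m)) hg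
      simpa [Finset.sum_apply] using h1
    have hsingle : ∑ i ∈ s, g i * f i (2 ^ m) = g m * f m (2 ^ m) := by
      apply Finset.sum_eq_single m
      · intro i his hne
        by_cases hgi : g i = 0
        · simp [hgi]
        · have : i ∈ s' := by simp [s', his, hgi]
          have hle : i ≤ m := s'.le_max' i this
          rw [hval i m hle, if_neg hne, mul_zero]
      · intro hnot
        exact absurd hms hnot
    rw [hsingle, hval m m le_rfl, if_pos rfl] at hev
    have : (2 : ℤ) * 2 ^ (2 * (m + 1)) ≠ 0 := by positivity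
    exact (mul_ne_zero hgm this) hev
  have := hli.finite_of_isNoetherian
  exact not_finite ℕ

/-- The sequences `n` and `n ^ 2` are 2-regular with non-negative values, but their nim-sum
`n ⊕ n ^ 2` is not 2-regular. -/
theorem result :
    TwoRegular (fun n => (n : ℤ)) ∧ TwoRegular (fun n => ((n ^ 2 : ℕ) : ℤ)) ∧
      ¬ TwoRegular (fun n => ((n ^^^ n ^ 2 : ℕ) : ℤ)) := by
  refine ⟨twoRegular_id, twoRegular_sq, fun h => not_twoRegular_and ?_⟩
  have h1 := TwoRegular.comb twoRegular_id twoRegular_sq h 1 1 (-1)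
  have h2 : (fun n : ℕ => (1 : ℤ) * (n : ℤ) + 1 * ((n ^ 2 : ℕ) : ℤ) +
      (-1) * ((n ^^^ n ^ 2 : ℕ) : ℤ)) = fun n : ℕ => 2 * ((n &&& n ^ 2 : ℕ) : ℤ) := by
    funext n
    exact two_and n
  rw [h2] at h1
  exact h1

end Pool.Agent.Results.MP_02a275_nt.NimSumSequence
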