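import Mathlib
import Pool.Agent.Results.MP_02a275_nt.NimSumSequence

set_option autoImplicit false

namespace Pool.Agent.Results.MP_02a275_nt.NimSumArray

open Pool.Agent.Results.MP_02a275_nt.NimSumSequence (kernel2 TwoRegular)

/-- A two-dimensional array `c` is 2-regular if there are finitely many arrays `C 0, …, C (s-1)`
such that every subarray `(m, n) ↦ c (2 ^ e * m + r) (2 ^ e * n + t)` with `e ≥ 0` and
`0 ≤ r, t < 2 ^ e` is a `ℤ`-linear combination of them. -/
def TwoRegularArray (c : ℕ → ℕ → ℤ) : Prop :=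
  ∃ (s : ℕ) (C : Fin s → ℕ → ℕ → ℤ), ∀ e r t : ℕ, r < 2 ^ e → t < 2 ^ e →
    ∃ w : Fin s → ℤ, ∀ m n : ℕ,
      c (2 ^ e * m + r) (2 ^ e * n + t) = ∑ i, w i * C i m n

/-- The diagonal of a 2-regular array is a 2-regular sequence. -/
theorem TwoRegularArray.diag {c : ℕ → ℕ → ℤ} (h : TwoRegularArray c) :
    TwoRegular (fun n => c n n) := by
  obtain ⟨s, C, hC⟩ := h
  apply NimSumSequence.twoRegular_of_le
    (M := Submodule.span ℤ (Set.range (fun (i : Fin s) (n : ℕ) => C i n n)))
  · exact Submodule.fg_span (Set.finite_range _)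
  · rintro f ⟨e, r, hr, rfl⟩
    obtain ⟨w, hw⟩ := hC e r r hr hr
    rw [SetLike.mem_coe]
    have h1 : (fun n => c (2 ^ e * n + r) (2 ^ e * n + r)) =
        ∑ i, w i • (fun (n : ℕ) => C i n n) := by
      funext n
      rw [hw n n, Finset.sum_apply]
      simp
    rw [h1]
    exact Submodule.sum_mem _ (fun i _ => Submodule.smul_mem _ _ (Submodule.subset_span ⟨i, rfl⟩))

/-- The sequences `n` and `n ^ 2` are 2-regular with non-negative values, but the array
`i ⊕ j ^ 2` is not 2-regular. -/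
theorem result :
    TwoRegular (fun n => (n : ℤ)) ∧ TwoRegular (fun n => ((n ^ 2 : ℕ) : ℤ)) ∧
      ¬ TwoRegularArray (fun i j => ((i ^^^ j ^ 2 : ℕ) : ℤ)) :=
  ⟨NimSumSequence.result.1, NimSumSequence.result.2.1,
    fun h => NimSumSequence.result.2.2 h.diag⟩

end Pool.Agent.Results.MP_02a275_nt.NimSumArray
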